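import Pool.Agent.H487.ED.Stm
import Pool.Agent.H477.E.FinU1

set_option autoImplicit false

/-!
# Project ED (helper487), S_DYA: dyadic windows (helper34)
-/

open Finset Complex Filter Topology Metric Set MeasureTheory

namespace Pool.Agent.H34.ED

open Pool.Agent.Helper242.KK (FT Ph)
open Pool.Agent.H477.Jen
open Pool.Agent.H477.E
open Pool.Agent.H487.ED

theorem window_sumE {c ε : ℝ} {k : ℕ} {X : ℝ} (hX : 3 ≤ X) (h : ∀ S : Finset ℂ,
    (∀ w ∈ S, iteratedDeriv k (FT Ph) w = 0 ∧ ¬ Ev ε k w ∧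
      |w.re - X| ≤ X / (10 * Real.log X)) →
    ∑ w ∈ S, (analyticOrderNatAt (iteratedDeriv k (FT Ph)) w : ℝ) ≤ Real.exp (-c * k) * X) {Y : ℝ}
    (hY1 : X - X / (10 * Real.log X) ≤ Y) (hY2 : Y ≤ X) :
    cnt k (fun w => ¬ Ev ε k w) X ≤ cnt k (fun w => ¬ Ev ε k w) Y + Real.exp (-c * k) * X := by
  rw [cnt_split k _ hY2]
  have h1 := h (cfil (fun w => ¬ Ev ε k w ∧ Y < w.re) (ZA_fin k X).toFinset) (by
    intro w hw
    simp only [mem_cfil, Set.Finite.mem_toFinset] at hw
    obtain ⟨⟨hw1, hw2, hw3⟩, hw4, hw5⟩ := hw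
    refine ⟨hw1, hw4, ?_⟩
    rw [abs_le]
    have : 0 < Real.log X := Real.log_pos (by linarith)
    have : 0 ≤ X / (10 * Real.log X) := by positivity
    constructor <;> linarith)
  have h2 : ∑ w ∈ cfil (fun w => ¬ Ev ε k w ∧ Y < w.re) (ZA_fin k X).toFinset, ordk k w ≤
      Real.exp (-c * k) * X := h1
  linarith

theorem cnt_diff_le (k : ℕ) (P : ℂ → Prop) {X Y : ℝ} (h : Y ≤ X) :
    cnt k P X - cnt k P Y ≤ cnt k (fun _ => True) X - cnt k (fun _ => True) Y := by
  rw [cnt_split k P h, cnt_split k (fun _ => True) h]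
  have h1 : ∑ w ∈ cfil (fun w => P w ∧ Y < w.re) (ZA_fin k X).toFinset, ordk k w ≤
      ∑ w ∈ cfil (fun w => True ∧ Y < w.re) (ZA_fin k X).toFinset, ordk k w := by
    apply Finset.sum_le_sum_of_subset_of_nonneg
    · intro w hw
      rw [mem_cfil] at hw ⊢
      exact ⟨hw.1, trivial, hw.2.2⟩
    · exact fun w _ _ => ordk_nonneg k w
  linarith

theorem dya_proof : S_WINE → S_ALLU → S_DYA := by
  intro hW hA ε hε
  obtain ⟨c1, hc1, kW, TW, hW⟩ := hW ε hε
  obtain ⟨kA, TA, hA⟩ := hA
  obtain ⟨K0, hK0⟩ : ∃ K0 : ℕ, K0 = max (max kW kA) 1 := ⟨_, rfl⟩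
  refine ⟨c1 / 2, max (400 / c1) (Real.exp (c1 / 2 * K0)), max (max TW TA) (Real.exp 1200),
    by positivity, ?_⟩
  intro T hT k hk
  have hTW : TW ≤ T := (le_max_left _ _).trans ((le_max_left _ _).trans hT)
  have hTA : TA ≤ T := (le_max_right _ _).trans ((le_max_left _ _).trans hT)
  have hTe : Real.exp 1200 ≤ T := (le_max_right _ _).trans hT
  have hT0 : 0 < T := (Real.exp_pos _).trans_le hTe
  have hlT : 1200 ≤ Real.log T := by
    rw [Real.le_log_iff_exp_le hT0]
    exact hTe
  have hT3 : 3 ≤ T := by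
    have := Real.add_one_le_exp (1200 : ℝ)
    linarith
  have h300 : ∀ X, T ≤ X → 300 * (k : ℝ) + 300 ≤ Real.log X := by
    intro X hX
    have := Real.log_le_log hT0 hX
    linarith
  obtain ⟨Δ, hΔ⟩ : ∃ Δ : ℝ, Δ = cnt k (fun _ => True) (2 * T) - cnt k (fun _ => True) T := ⟨_, rfl⟩
  rw [← hΔ]
  have hΔ0 : 0 ≤ Δ := by
    have := cnt_mono k (fun _ => True) (show T ≤ 2 * T by linarith)
    linarith
  by_cases hkK : K0 ≤ k
  swap
  · -- small k
    have h1 := cnt_diff_le k (fun w => ¬ Ev ε k w) (show T ≤ 2 * T by linarith)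
    rw [← hΔ] at h1
    have h2 : 1 ≤ max (400 / c1) (Real.exp (c1 / 2 * K0)) * Real.exp (-(c1 / 2) * k) := by
      have h3 : Real.exp (c1 / 2 * K0) * Real.exp (-(c1 / 2) * k) ≤
          max (400 / c1) (Real.exp (c1 / 2 * K0)) * Real.exp (-(c1 / 2) * k) :=
        mul_le_mul_of_nonneg_right (le_max_right _ _) (Real.exp_pos _).le
      refine le_trans ?_ h3
      rw [← Real.exp_add]
      apply Real.one_le_exp
      have h4 : (k : ℝ) ≤ K0 := by exact_mod_cast (not_le.1 hkK).le
      have h5 : 0 ≤ c1 / 2 * ((K0 : ℝ) - k) := mul_nonneg (by positivity) (by linarith)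
      linarith
    have h3 := mul_le_mul_of_nonneg_right h2 hΔ0
    linarith
  -- the main case
  have hkW : kW ≤ k := by
    have := le_max_left kW kA
    have := le_max_left (max kW kA) 1
    omega
  have hkA : kA ≤ k := by
    have := le_max_right kW kA
    have := le_max_left (max kW kA) 1
    omega
  have hk1 : 1 ≤ k := by
    have := le_max_right (max kW kA) 1
    omega
  have hk1' : (1:ℝ) ≤ k := by exact_mod_cast hk1
  have hk0 : (0:ℝ) < k := by linarith
  obtain ⟨q, hq⟩ : ∃ q : ℝ, q = Real.exp (-c1 * k) := ⟨_, rfl⟩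
  have hq0 : 0 < q := by
    rw [hq]
    exact Real.exp_pos _
  have hws : ∀ Z, T ≤ Z → ∀ Y, Z - Z / (10 * Real.log Z) ≤ Y → Y ≤ Z →
      cnt k (fun w => ¬ Ev ε k w) Z ≤ cnt k (fun w => ¬ Ev ε k w) Y + q * Z := by
    intro Z hZ Y hY1 hY2
    have h1 := window_sumE (c := c1) (k := k) (ε := ε) (by linarith) (hW Z (by linarith) k hkW
      (h300 Z hZ)) hY1 hY2
    rw [hq]
    exact h1
  have hlow : ∀ Z, T ≤ Z → cnt k (fun _ => True) (Z - Z / (10 * Real.log Z)) + Z / (100 * k) ≤
      cnt k (fun _ => True) Z := by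
    intro Z hZ
    obtain ⟨S, hS1, hS2⟩ := hA Z (by linarith) k hkA (h300 Z hZ)
    have h1 := h300 Z hZ
    have hZ0 : 0 < Z := by linarith
    have h2 : 0 ≤ Z / (10 * Real.log Z) := div_nonneg hZ0.le (by linarith)
    have h3 : Z / (10 * Real.log Z) ≤ Z := div_le_self hZ0.le (by linarith)
    have := Pool.Agent.H477.EU.card_le_cnt k (a := Z - Z / (10 * Real.log Z)) (X := Z)
      (by linarith) S hS1 (by linarith)
    linarith
  have hδ : ∀ Z, T ≤ Z → 1 / 10 ≤ Z / (10 * Real.log Z) := fun Z hZ => by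
    have h3 := h300 Z hZ
    have h5 := Real.log_le_sub_one_of_pos (show 0 < Z by linarith)
    rw [div_le_div_iff₀ (by norm_num) (by linarith)]
    linarith
  have hδ2 : ∀ Z, T ≤ Z → Z / (10 * Real.log Z) ≤ Z / 2 := fun Z hZ => by
    have h3 := h300 Z hZ
    exact div_le_div_of_nonneg_left (by linarith) (by norm_num) (by linarith)
  have hstep : ∀ X, T ≤ X → q * X ≤ 100 * k * q * (cnt k (fun _ => True) X -
      cnt k (fun _ => True) (X - X / (10 * Real.log X))) := by
    intro X hX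
    have h4 := hlow X hX
    have h5 : 100 * k * q * (X / (100 * k)) ≤ 100 * k * q * (cnt k (fun _ => True) X -
        cnt k (fun _ => True) (X - X / (10 * Real.log X))) :=
      mul_le_mul_of_nonneg_left (by linarith) (by positivity)
    have h6 : 100 * k * q * (X / (100 * k)) = q * X := by field_simp
    linarith
  have main2 : ∀ X, T ≤ X → cnt k (fun w => ¬ Ev ε k w) X - cnt k (fun w => ¬ Ev ε k w) T ≤
      2 * T * q + 100 * k * q * (cnt k (fun _ => True) X - cnt k (fun _ => True) T) := by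
    refine step_ind (fun X => cnt k (fun w => ¬ Ev ε k w) X - cnt k (fun w => ¬ Ev ε k w) T)
      (fun X => 100 * k * q * (cnt k (fun _ => True) X - cnt k (fun _ => True) T))
      (fun X => X / (10 * Real.log X)) T (1 / 10) (2 * T * q) (by norm_num) hδ ?_ ?_
    · intro X hX hX'
      have h3 := hws X hX (X - X / (10 * Real.log X)) le_rfl (by linarith [hδ X hX])
      have h4 := hstep X hX
      linarith
    · intro X hX hX'
      have h3 := hws X hX T hX'.le hX
      have h5 := hδ2 X hX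
      have h6 : X ≤ 2 * T := by
        have h7 : X - X / 2 < T := by linarith
        linarith
      have h7 : q * X ≤ q * (2 * T) := mul_le_mul_of_nonneg_left h6 hq0.le
      have h8 : 0 ≤ 100 * k * q * (cnt k (fun _ => True) X - cnt k (fun _ => True) T) := by
        have := cnt_mono k (fun _ => True) hX
        exact mul_nonneg (by positivity) (by linarith)
      linarith
  have h2T := main2 (2 * T) (by linarith)
  rw [← hΔ] at h2T
  have hD : 2 * T * q ≤ 100 * k * q * Δ := by
    have h4 := hstep (2 * T) (by linarith)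
    have h5 := hδ2 (2 * T) (by linarith)
    have h6 : cnt k (fun _ => True) T ≤
        cnt k (fun _ => True) (2 * T - 2 * T / (10 * Real.log (2 * T))) :=
      cnt_mono k _ (by linarith)
    have h7 : 100 * k * q * (cnt k (fun _ => True) (2 * T) -
        cnt k (fun _ => True) (2 * T - 2 * T / (10 * Real.log (2 * T)))) ≤ 100 * k * q * Δ :=
      mul_le_mul_of_nonneg_left (by linarith) (by positivity)
    linarith
  have hfin : 200 * k * q ≤ max (400 / c1) (Real.exp (c1 / 2 * K0)) *
      Real.exp (-(c1 / 2) * k) := by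
    have h3 : 400 / c1 * Real.exp (-(c1 / 2) * k) ≤
        max (400 / c1) (Real.exp (c1 / 2 * K0)) * Real.exp (-(c1 / 2) * k) :=
      mul_le_mul_of_nonneg_right (le_max_left _ _) (Real.exp_pos _).le
    refine le_trans ?_ h3
    have h4 : q = Real.exp (-(c1 / 2) * k) * Real.exp (-(c1 / 2) * k) := by
      rw [hq, ← Real.exp_add]
      congr 1
      ring
    have h5 : c1 / 2 * k * Real.exp (-(c1 / 2) * k) ≤ 1 := by
      have h6 := Real.add_one_le_exp (c1 / 2 * k)
      have h7 : Real.exp (c1 / 2 * k) * Real.exp (-(c1 / 2) * k) = 1 := by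
        rw [← Real.exp_add, ← Real.exp_zero]
        congr 1
        ring
      have h8 := mul_le_mul_of_nonneg_right (show c1 / 2 * k ≤ Real.exp (c1 / 2 * k) by linarith)
        (Real.exp_pos (-(c1 / 2) * k)).le
      linarith
    have h6 : 200 * k * Real.exp (-(c1 / 2) * k) ≤ 400 / c1 := by
      rw [le_div_iff₀ hc1]
      linarith
    rw [h4]
    have h7 := mul_le_mul_of_nonneg_right h6 (Real.exp_pos (-(c1 / 2) * k)).le
    linarith
  have h9 := mul_le_mul_of_nonneg_right hfin hΔ0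
  linarith

end Pool.Agent.H34.ED
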